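import Pool.Agent.helper4.GA.Spec

/-!
# Row `ga:CV2`
-/

set_option autoImplicit false

open Finset
open Pool.Agent.helper32.Cant

namespace Pool.Agent.GA

theorem CV2_nn (p : Prop) : 0 ≤ ind p := by
  unfold ind; split_ifs <;> norm_num

theorem CV2_le (p : Prop) : ind p ≤ 1 := by
  unfold ind; split_ifs <;> norm_num

theorem CV2_of {p : Prop} (h : p) : ind p = 1 := by
  unfold ind; rw [if_pos h]

theorem CV2_not {p : Prop} (h : ¬ p) : ind p = 0 := by
  unfold ind; rw [if_neg h]

theorem CV2 : CV2_stmt := by
  classical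
  intro X _ n R w K hw hK hn h1 h2
  obtain ⟨W, hW⟩ : ∃ W : ℝ, W = ∑ y, w y := ⟨_, rfl⟩
  have hW0 : 0 ≤ W := by rw [hW]; exact Finset.sum_nonneg fun y _ => (hw y).le
  obtain ⟨L, hL⟩ : ∃ L : ℕ, L = 3 ^ (n - 2) := ⟨_, rfl⟩
  have hL0 : 0 < L := by rw [hL]; positivity
  have h9 : 3 ^ n = 9 * L := by
    rw [hL, show (9 : ℕ) = 3 ^ 2 by norm_num, ← pow_add]
    congr 1
    omega
  rw [← hW]
  have hmaps : ∀ x ∈ (Finset.univ : Finset X), R x / L ∈ Finset.Icc 9 17 := by
    intro x _
    have a1 := h1 x
    have a2 := h2 x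
    rw [h9] at a1 a2
    rw [Finset.mem_Icc]
    constructor
    · exact (Nat.le_div_iff_mul_le hL0).2 a1
    · have : R x / L < 18 := (Nat.div_lt_iff_lt_mul hL0).2 (by omega)
      omega
  rw [← Finset.sum_fiberwise_of_maps_to hmaps]
  have hcl : ∀ k ∈ Finset.Icc 9 17, ∑ x ∈ Finset.univ.filter (fun x => R x / L = k),
      w x * ind (K * mj n R w 2 x < W) ≤ W / K := by
    intro k _
    by_cases hbad : ∃ x, R x / L = k ∧ K * mj n R w 2 x < W
    · obtain ⟨x, hx, hb⟩ := hbad
      have e1 : ∑ y ∈ Finset.univ.filter (fun y => R y / L = k),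
          w y * ind (K * mj n R w 2 y < W) ≤ mj n R w 2 x := by
        unfold mj
        calc ∑ y ∈ Finset.univ.filter (fun y => R y / L = k),
              w y * ind (K * mj n R w 2 y < W)
            ≤ ∑ y ∈ Finset.univ.filter (fun y => R y / L = k),
              w y * ind (|(R y : ℤ) - R x| ≤ 3 ^ (n - 2)) := by
              apply Finset.sum_le_sum
              intro y hy
              have hy' := (Finset.mem_filter.1 hy).2
              have hd : |(R y : ℤ) - R x| ≤ 3 ^ (n - 2) := by
                have e2 : ((3 : ℤ) ^ (n - 2)) = (L : ℤ) := by rw [hL]; push_cast; rfl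
                rw [e2, abs_le]
                have m1 := Nat.div_add_mod (R y) L
                have m2 := Nat.div_add_mod (R x) L
                have m3 := Nat.mod_lt (R y) hL0
                have m4 := Nat.mod_lt (R x) hL0
                rw [hy'] at m1
                rw [hx] at m2
                constructor <;> omega
              rw [CV2_of hd]
              exact mul_le_mul_of_nonneg_left (CV2_le _) (hw y).le
          _ ≤ ∑ y, w y * ind (|(R y : ℤ) - R x| ≤ 3 ^ (n - 2)) :=
              Finset.sum_le_sum_of_subset_of_nonneg (Finset.filter_subset _ _)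
                fun y _ _ => mul_nonneg (hw y).le (CV2_nn _)
      refine e1.trans ?_
      rw [le_div_iff₀ hK]
      linarith
    · push Not at hbad
      have : ∑ x ∈ Finset.univ.filter (fun x => R x / L = k),
          w x * ind (K * mj n R w 2 x < W) = 0 := by
        apply Finset.sum_eq_zero
        intro x hx
        rw [CV2_not (not_lt.2 (hbad x (Finset.mem_filter.1 hx).2)), mul_zero]
      rw [this]
      positivity
  refine (Finset.sum_le_sum hcl).trans ?_
  rw [Finset.sum_const, Nat.card_Icc, nsmul_eq_mul]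
  norm_num
  apply le_of_eq
  ring

end Pool.Agent.GA
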