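import Pool.Agent.helper4.GA.Spec

/-!
# Row `ga:FSC`
-/

set_option autoImplicit false

open Finset
open Pool.Agent.helper32.Cant

namespace Pool.Agent.GA

theorem FSC_log3 : 1 ≤ Real.log 3 := by
  rw [Real.le_log_iff_exp_le (by norm_num)]
  have := Real.exp_one_lt_d9
  linarith

theorem FSC_clog (n : ℕ) (hn : 3 ≤ n) : (Nat.clog 3 n : ℝ) ≤ 2 * Real.log n ∧ 1 ≤ Real.log n := by
  have hn0 : (0 : ℝ) < n := by positivity
  have hn3 : (3 : ℝ) ≤ n := by exact_mod_cast hn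
  have hl : 1 ≤ Real.log n := FSC_log3.trans (Real.log_le_log (by norm_num) hn3)
  refine ⟨?_, hl⟩
  have h1 := Nat.pow_pred_clog_lt_self (b := 3) (by norm_num) (x := n) (by omega)
  have h2 : ((Nat.clog 3 n).pred : ℝ) * Real.log 3 ≤ Real.log n := by
    rw [← Real.log_pow]
    apply Real.log_le_log (by positivity)
    exact_mod_cast h1.le
  have h3 : ((Nat.clog 3 n).pred : ℝ) ≤ Real.log n := by
    have h4 : (0 : ℝ) ≤ ((Nat.clog 3 n).pred : ℝ) := by positivity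
    have := FSC_log3
    nlinarith
  have h5 : (Nat.clog 3 n : ℝ) ≤ ((Nat.clog 3 n).pred : ℝ) + 1 := by
    have : Nat.clog 3 n ≤ (Nat.clog 3 n).pred + 1 := by
      rw [Nat.pred_eq_sub_one]; omega
    exact_mod_cast this
  linarith

theorem FSC_num (n : ℕ) (hn : 3 ≤ n) :
    4 * Sm n + 6 * Real.log n + Real.log 4 ≤ 10 ^ 15 * Real.log n ^ 3 := by
  obtain ⟨h1, h2⟩ := FSC_clog n hn
  obtain ⟨x, hx⟩ : ∃ x : ℝ, x = Real.log n := ⟨_, rfl⟩
  rw [← hx] at h1 h2 ⊢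
  have h3 : (Nat.clog 3 n : ℝ) ^ 3 ≤ (2 * x) ^ 3 := pow_le_pow_left₀ (by positivity) h1 3
  have h4 : Real.log 4 ≤ 3 := by
    have := Real.log_le_sub_one_of_pos (x := 4) (by norm_num)
    linarith
  have h5 : x ≤ x ^ 3 := by
    have : 1 ≤ x ^ 2 := by nlinarith
    nlinarith
  have h6 : 1 ≤ x ^ 3 := h2.trans h5
  unfold Sm
  nlinarith

theorem FSC (hCEL : CEL_stmt) (hFS1 : FS1_stmt) : FSC_stmt := by
  obtain ⟨N₀, hN₀⟩ := hFS1
  refine ⟨max N₀ 3, fun n hn c hc => ?_⟩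
  have hnN : N₀ ≤ n := (le_max_left _ _).trans hn
  have hn3 : 3 ≤ n := (le_max_right _ _).trans hn
  have hn0 : (0 : ℝ) < n := by
    have : 0 < n := by omega
    exact_mod_cast this
  have hn3' : (3 : ℝ) ≤ n := by exact_mod_cast hn3
  obtain ⟨Y, hY⟩ : ∃ Y : ℝ, Y = ((c.G.image (fun x => yi c x / 3 ^ n)).card : ℝ) := ⟨_, rfl⟩
  have h1 := hCEL n c (4 * Sm n)
  have h2 := hN₀ n hnN (full c) rfl
  rw [← hY] at h1 ⊢
  have h3 : 1 / (n : ℝ) ^ 6 ≤ (c.G.card : ℝ) / 6 ^ n := by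
    rw [le_div_iff₀ (by positivity)]
    calc 1 / (n : ℝ) ^ 6 * 6 ^ n = 6 ^ n / n ^ 6 := by ring
      _ ≤ _ := hc
  have h4 : 1 / (n : ℝ) ^ 11 ≤ 1 / (2 * (n : ℝ) ^ 6) := by
    apply one_div_le_one_div_of_le (by positivity)
    have h5 : (2 : ℝ) ≤ (n : ℝ) ^ 5 := by
      calc (2 : ℝ) ≤ 3 ^ 5 := by norm_num
        _ ≤ (n : ℝ) ^ 5 := pow_le_pow_left₀ (by norm_num) hn3' 5
    calc 2 * (n : ℝ) ^ 6 ≤ (n : ℝ) ^ 5 * (n : ℝ) ^ 6 :=
          mul_le_mul_of_nonneg_right h5 (by positivity)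
      _ = (n : ℝ) ^ 11 := by ring
  have h6 : 1 / (2 * (n : ℝ) ^ 6) ≤ 2 * Y / 3 ^ n * Real.exp (4 * Sm n) := by
    have e : 1 / (n : ℝ) ^ 6 = 1 / (2 * (n : ℝ) ^ 6) + 1 / (2 * (n : ℝ) ^ 6) := by
      field_simp; norm_num
    linarith
  have h7 : 3 ^ n * (Real.exp (-(4 * Sm n)) / (4 * (n : ℝ) ^ 6)) ≤ Y := by
    have e1 : Real.exp (4 * Sm n) * Real.exp (-(4 * Sm n)) = 1 := by
      rw [← Real.exp_add, add_neg_cancel, Real.exp_zero]
    have h8 := mul_le_mul_of_nonneg_right h6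
      (show 0 ≤ Real.exp (-(4 * Sm n)) * (3 ^ n / 2) by positivity)
    calc 3 ^ n * (Real.exp (-(4 * Sm n)) / (4 * (n : ℝ) ^ 6))
        = 1 / (2 * (n : ℝ) ^ 6) * (Real.exp (-(4 * Sm n)) * (3 ^ n / 2)) := by
          field_simp; norm_num
      _ ≤ 2 * Y / 3 ^ n * Real.exp (4 * Sm n) * (Real.exp (-(4 * Sm n)) * (3 ^ n / 2)) := h8
      _ = Y * (Real.exp (4 * Sm n) * Real.exp (-(4 * Sm n))) := by
          field_simp
      _ = Y := by rw [e1, mul_one]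
  refine le_trans ?_ h7
  apply mul_le_mul_of_nonneg_left _ (by positivity)
  have e2 : Real.exp (-(4 * Sm n)) / (4 * (n : ℝ) ^ 6) =
      Real.exp (-(4 * Sm n + 6 * Real.log n + Real.log 4)) := by
    have e3 : Real.exp (6 * Real.log n + Real.log 4) = 4 * (n : ℝ) ^ 6 := by
      rw [Real.exp_add, Real.exp_log (by norm_num)]
      have : Real.exp (6 * Real.log n) = (n : ℝ) ^ 6 := by
        rw [show (6 : ℝ) * Real.log n = ((6 : ℕ) : ℝ) * Real.log n by norm_num, Real.exp_nat_mul,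
          Real.exp_log hn0]
      rw [this]; ring
    rw [← e3, ← Real.exp_sub]
    congr 1
    ring
  rw [e2]
  apply Real.exp_le_exp.2
  have := FSC_num n hn3
  linarith

end Pool.Agent.GA
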